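import Pool.Agent.Run7.h907.BL.FinT

set_option autoImplicit false

/-!
# Billiards in triangles: a sign rule for the angular modes of invariant functions

Let `T` be a triangle with the angles `α`, `β`, `γ` and `f` a bounded measurable function of the state
(position, direction) which is invariant under the billiard flow in `T`. Let `e m` be the energy of
its `m`-th Fourier mode in the direction: the integral over the triangle of the square of the
absolute value of the `m`-th Fourier coefficient. Then for every `k ≥ 1` the difference
`e (k - 1) - e (k + 1)` is zero or has the sign of `(-1) ^ (k + 1) sin (k α) sin (k β) sin (k γ)`, and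
it is zero if this product is zero. If `f` has mean zero, then `e 0 = e 2`.

So a non-constant invariant function of an irrational triangle, if there is one, has a spectrum in
the direction whose growth and decay, among the even and among the odd modes, is prescribed by the
angles alone. For instance `e 1 ≤ e 3` in acute and `e 1 ≥ e 3` in obtuse triangles, and all odd
modes vanish in right triangles.

Proof. The flux of `f` in the direction `θ` across a path from a fixed point to `z` has a Fourier
coefficient `Φ k z` of number `k` in `θ`; by the law of reflection `Φ k` maps each side of `T` into a
straight line of the direction `i exp (i k τ)`, `τ` the direction angle of the side, and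
`e (k - 1) - e (k + 1)` is four times the signed area of the triangle with the vertices `Φ k (p i)`,
whose sides have prescribed directions; the sign of its area depends only on these directions.
-/

namespace Pool.Agent.Results.MP_eaca18_an.TriangleSignRule

open Complex Set MeasureTheory Pool.Agent.W780.PG Pool.Agent.W780.BB Pool.Agent.TH103.BL
  Run7.h907.BL

open scoped Real

theorem result {p : Fin (0 + 3) → ℂ} (hp : IsConvexPolygon p) (f : ℂ × ℝ → ℝ) (hf : Measurable f)
    (hb : ∃ C : ℝ, ∀ x, |f x| ≤ C) (hI : IsInvariantFun p f) :
    (∀ k : ℕ, 1 ≤ k → 0 ≤ (-1) ^ (k + 1) *
      (Real.sin (k * ang p 0) * Real.sin (k * ang p 1) * Real.sin (k * ang p 2)) *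
      (energy p f (k - 1) - energy p f (k + 1))) ∧
    (∀ k : ℕ, 1 ≤ k →
      Real.sin (k * ang p 0) * Real.sin (k * ang p 1) * Real.sin (k * ang p 2) = 0 →
      energy p f (k - 1) = energy p f (k + 1)) ∧
    (phaseMean p f = 0 → energy p f 0 = energy p f 2) :=
  tri_final Pool.Agent.N440.LB.parts hp hf hb hI

end Pool.Agent.Results.MP_eaca18_an.TriangleSignRule
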